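import Mathlib
import Pool.Agent.H54.SC.Div

/-!
# Semi-magic `3 × 3` squares of distinct positive cubes: the order of the base numbers

For every cell the cubes of the two other numbers of its row and of the two other numbers of its
column have the same sum, so one of the two pairs surrounds the other one.  This gives the order of
the entries and of the six base sums, up to rearrangement.
-/

open Finset Set

namespace Pool.Agent.Results.MP_0bff99_nt.BaseSums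

/-- `n` is a `3 × 3` array of pairwise distinct positive integers whose cubes form a semi-magic
square with sum `t`. -/
def IsSemiMagicOfCubes (n : Fin 3 → Fin 3 → ℕ) (t : ℕ) : Prop :=
  (∀ i j, 0 < n i j) ∧ (∀ i j k l, n i j = n k l → i = k ∧ j = l) ∧
    (∀ i, ∑ j, n i j ^ 3 = t) ∧ ∀ j, ∑ i, n i j ^ 3 = t

/-- `m` arises from `n` by permuting the rows and the columns and perhaps transposing. -/
def IsRearrangement (m n : Fin 3 → Fin 3 → ℕ) : Prop :=
  ∃ σ τ : Equiv.Perm (Fin 3), (∀ i j, m i j = n (σ i) (τ j)) ∨ ∀ i j, m i j = n (τ j) (σ i)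

/-- The line `a` is below the line `b`: its sum, its product and its sums of `p`-th powers for
`0 < p < 3` are smaller, and its sums of `p`-th powers for `p < 0` and for `p > 3` are larger. -/
def Below (a b : Fin 3 → ℕ) : Prop :=
  ∑ k, a k < ∑ k, b k ∧ ∏ k, a k < ∏ k, b k ∧
    (∀ p : ℝ, 0 < p → p < 3 → ∑ k, (a k : ℝ) ^ p < ∑ k, (b k : ℝ) ^ p) ∧
    ∀ p : ℝ, p < 0 ∨ 3 < p → ∑ k, (b k : ℝ) ^ p < ∑ k, (a k : ℝ) ^ p

lemma sum3 {α : Type*} [AddCommMonoid α] (f : Fin 3 → α) (j : Fin 3) :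
    ∑ k, f k = f j + f (j + 1) + f (j + 2) := by
  rw [Fin.sum_univ_three]
  fin_cases j
  · rfl
  · change f 0 + f 1 + f 2 = f 1 + f 2 + f 0
    abel
  · change f 0 + f 1 + f 2 = f 2 + f 0 + f 1
    abel

lemma prod3 (f : Fin 3 → ℕ) (j : Fin 3) :
    ∏ k, f k = f j * f (j + 1) * f (j + 2) := by
  rw [Fin.prod_univ_three]
  fin_cases j
  · rfl
  · change f 0 * f 1 * f 2 = f 1 * f 2 * f 0
    ring
  · change f 0 * f 1 * f 2 = f 2 * f 0 * f 1
    ring

/-- the four neighbours of an entry -/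
lemma cross {n : Fin 3 → Fin 3 → ℕ} {t : ℕ} (h : IsSemiMagicOfCubes n t) (i j : Fin 3) :
    n i (j + 1) ^ 3 + n i (j + 2) ^ 3 = n (i + 1) j ^ 3 + n (i + 2) j ^ 3 ∧
      n i (j + 1) ≠ n (i + 1) j ∧ n i (j + 1) ≠ n (i + 2) j := by
  obtain ⟨hp, hd, hr, hc⟩ := h
  refine ⟨?_, ?_, ?_⟩
  · have h1 := hr i
    have h2 := hc j
    rw [sum3 (fun k => n i k ^ 3) j] at h1
    rw [sum3 (fun k => n k j ^ 3) i] at h2
    omega
  · intro h
    have := (hd _ _ _ _ h).1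
    fin_cases i <;> simp at this
  · intro h
    have := (hd _ _ _ _ h).1
    fin_cases i <;> simp at this

lemma six_dvd (a : ℤ) : (6 : ℤ) ∣ a ^ 3 - a := by
  have h : (a : ZMod 6) ^ 3 - a = 0 := by
    generalize (a : ZMod 6) = b
    revert b
    decide
  have h2 : ((a ^ 3 - a : ℤ) : ZMod 6) = 0 := by
    push_cast
    exact h
  exact (ZMod.intCast_zmod_eq_zero_iff_dvd _ 6).1 h2

lemma ne_sum {x y z w : ℤ} (hx : 0 < x) (hy : 0 < y) (h : x ^ 3 + y ^ 3 = z ^ 3 + w ^ 3)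
    (h1 : x ≠ z) (h2 : x ≠ w) : x + y ≠ z + w := by
  intro hs
  have hxy : x * y = z * w := by
    have e : 3 * (x + y) * (x * y - z * w) = 0 := by
      have e1 : (x + y) ^ 3 = (z + w) ^ 3 := by rw [hs]
      have e2 : 3 * (x + y) * (x * y) = (x + y) ^ 3 - (x ^ 3 + y ^ 3) := by ring
      have e3 : 3 * (z + w) * (z * w) = (z + w) ^ 3 - (z ^ 3 + w ^ 3) := by ring
      rw [mul_sub, e2, hs, e3, h]
      ring
    rcases mul_eq_zero.1 e with e | e
    · omega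
    · omega
  have e : (x - z) * (x - w) = 0 := by
    have : (x - z) * (x - w) = x * x - x * (z + w) + z * w := by ring
    rw [this, ← hs, ← hxy]
    ring
  rcases mul_eq_zero.1 e with e | e
  · exact h1 (by omega)
  · exact h2 (by omega)

lemma ne_prod {x y z w : ℕ} (h : x ^ 3 + y ^ 3 = z ^ 3 + w ^ 3)
    (h1 : x ≠ z) (h2 : x ≠ w) : x * y ≠ z * w := by
  intro hs
  have h' : (x : ℤ) ^ 3 + y ^ 3 = z ^ 3 + w ^ 3 := by exact_mod_cast h
  have hs' : (x : ℤ) * y = z * w := by exact_mod_cast hs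
  have e : ((x : ℤ) ^ 3 - z ^ 3) * (x ^ 3 - w ^ 3) = 0 := by
    have e1 : ((x : ℤ) ^ 3 - z ^ 3) * (x ^ 3 - w ^ 3)
        = x ^ 3 * x ^ 3 - x ^ 3 * (z ^ 3 + w ^ 3) + (z * w) ^ 3 := by ring
    rw [e1, ← h', ← hs']
    ring
  rcases mul_eq_zero.1 e with e | e
  · apply h1
    have : (x : ℤ) ^ 3 = z ^ 3 := by linarith
    have h3 : x ^ 3 = z ^ 3 := by exact_mod_cast this
    exact Nat.pow_left_injective (by norm_num) h3
  · apply h2
    have : (x : ℤ) ^ 3 = w ^ 3 := by linarith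
    have h3 : x ^ 3 = w ^ 3 := by exact_mod_cast this
    exact Nat.pow_left_injective (by norm_num) h3

/-- the spread of the less balanced pair -/
lemma spread {x y z w : ℤ} (hz : 0 < z) (hw : 0 < w) (h : x ^ 3 + y ^ 3 = z ^ 3 + w ^ 3)
    (hs : z + w + 18 ≤ x + y) : 18 * (z + w) + 324 < (z - w) ^ 2 := by
  have e1 : 4 * (x ^ 3 + y ^ 3) = (x + y) ^ 3 + 3 * (x + y) * (x - y) ^ 2 := by ring
  have e2 : 4 * (z ^ 3 + w ^ 3) = (z + w) ^ 3 + 3 * (z + w) * (z - w) ^ 2 := by ring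
  obtain ⟨S, hS⟩ : ∃ S, S = x + y := ⟨_, rfl⟩
  obtain ⟨R, hR⟩ : ∃ R, R = z + w := ⟨_, rfl⟩
  have hR0 : 0 < R := by omega
  have hSR : R + 18 ≤ S := by omega
  have e3 : S ^ 3 + 3 * S * (x - y) ^ 2 = R ^ 3 + 3 * R * (z - w) ^ 2 := by
    rw [hS, hR, ← e1, ← e2, h]
  have hS0 : 0 < S := by omega
  have h4 : 0 ≤ 3 * S * (x - y) ^ 2 := by positivity
  have h5 : 18 * (3 * R ^ 2 + 54 * R) < S ^ 3 - R ^ 3 := by
    have : S ^ 3 - R ^ 3 = (S - R) * (S ^ 2 + S * R + R ^ 2) := by ring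
    rw [this]
    have h6 : 3 * R ^ 2 + 54 * R < S ^ 2 + S * R + R ^ 2 := by nlinarith
    have h7 : 0 ≤ S ^ 2 + S * R + R ^ 2 := by positivity
    nlinarith
  have h6 : 3 * R * (18 * R + 324) < 3 * R * (z - w) ^ 2 := by nlinarith
  rw [← hR]
  exact lt_of_mul_lt_mul_left h6 (by positivity)

/-- strictly convex functions and sums over pairs with the same sum -/
lemma convex_lt {s : Set ℝ} {f : ℝ → ℝ} (hf : StrictConvexOn ℝ s f) {a b c d : ℝ}
    (hc : c ∈ s) (hd : d ∈ s) (h : a + b = c + d) (h1 : c < a) (h2 : c < b) :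
    f a + f b < f c + f d := by
  have hcd : c < d := by linarith
  have hl : 0 < (a - c) / (d - c) := div_pos (by linarith) (by linarith)
  have hl' : 0 < (b - c) / (d - c) := div_pos (by linarith) (by linarith)
  have hdc : d - c ≠ 0 := by linarith
  have hsum : (b - c) / (d - c) + (a - c) / (d - c) = 1 := by
    rw [← add_div, div_eq_one_iff_eq hdc]
    linarith
  have k1 := hf.2 hc hd hcd.ne hl' hl hsum
  have k2 := hf.2 hc hd hcd.ne hl hl' (by rw [add_comm]; exact hsum)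
  have e1 : ((b - c) / (d - c)) • c + ((a - c) / (d - c)) • d = a := by
    simp only [smul_eq_mul]
    field_simp
    have : b = c + d - a := by linarith
    rw [this]; ring
  have e2 : ((a - c) / (d - c)) • c + ((b - c) / (d - c)) • d = b := by
    simp only [smul_eq_mul]
    field_simp
    have : a = c + d - b := by linarith
    rw [this]; ring
  rw [e1] at k1
  rw [e2] at k2
  simp only [smul_eq_mul] at k1 k2
  have e3 : (b - c) / (d - c) * f c + (a - c) / (d - c) * f d +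
      ((a - c) / (d - c) * f c + (b - c) / (d - c) * f d) = f c + f d := by
    have : (b - c) / (d - c) * f c + (a - c) / (d - c) * f d +
      ((a - c) / (d - c) * f c + (b - c) / (d - c) * f d) =
      ((b - c) / (d - c) + (a - c) / (d - c)) * (f c + f d) := by ring
    rw [this, hsum, one_mul]
  linarith

/-- `c, d` is the less balanced pair -/
def Outer (a b c d : ℝ) : Prop := (c < a ∧ c < b) ∨ (d < a ∧ d < b)

lemma outer_or {a b c d : ℝ} (h : a + b = c + d) (h1 : a ≠ c) (h2 : a ≠ d) :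
    Outer a b c d ∨ Outer c d a b := by
  unfold Outer
  rcases lt_or_gt_of_ne h1 with hac | hac
  · rcases lt_or_gt_of_ne h2 with had | had
    · exact Or.inr (Or.inl ⟨hac, had⟩)
    · exact Or.inl (Or.inr ⟨had, by linarith⟩)
  · rcases lt_or_gt_of_ne h2 with had | had
    · exact Or.inl (Or.inl ⟨hac, by linarith⟩)
    · exact Or.inr (Or.inr ⟨by linarith, by linarith⟩)

lemma outer_convex {s : Set ℝ} {f : ℝ → ℝ} (hf : StrictConvexOn ℝ s f) {a b c d : ℝ}
    (hc : c ∈ s) (hd : d ∈ s) (h : a + b = c + d) (ho : Outer a b c d) :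
    f a + f b < f c + f d := by
  rcases ho with ⟨h1, h2⟩ | ⟨h1, h2⟩
  · exact convex_lt hf hc hd h h1 h2
  · have := convex_lt hf hd hc (show a + b = d + c by linarith) h1 h2
    linarith

lemma strictConvex_neg {r : ℝ} (hr : r < 0) :
    StrictConvexOn ℝ (Ioi (0 : ℝ)) fun x : ℝ => x ^ r := by
  apply strictConvexOn_of_deriv2_pos' (convex_Ioi 0)
  · intro x hx
    exact (Real.continuousAt_rpow_const x r (Or.inl (ne_of_gt hx))).continuousWithinAt
  · intro x hx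
    have hx0 : x ≠ 0 := ne_of_gt hx
    have e2 : deriv^[2] (fun x : ℝ => x ^ r) x = r * ((r - 1) * x ^ (r - 1 - 1)) := by
      change deriv (deriv (fun x : ℝ => x ^ r)) x = _
      rw [Real.deriv_rpow_const', deriv_const_mul_field, Real.deriv_rpow_const]
    rw [e2]
    have : 0 < x ^ (r - 1 - 1) := Real.rpow_pos_of_pos hx _
    have h2 : 0 < r * (r - 1) := by nlinarith
    nlinarith

lemma outer_rpow_conv {r a b c d : ℝ} (hr : r < 0 ∨ 1 < r) (hc : 0 < c) (hd : 0 < d)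
    (h : a + b = c + d) (ho : Outer a b c d) : a ^ r + b ^ r < c ^ r + d ^ r := by
  rcases hr with hr | hr
  · exact outer_convex (strictConvex_neg hr) hc hd h ho
  · exact outer_convex (strictConvexOn_rpow hr) (mem_Ici.2 hc.le) (mem_Ici.2 hd.le) h ho

lemma outer_rpow_conc {r a b c d : ℝ} (hr : 0 < r) (hr1 : r < 1) (hc : 0 < c) (hd : 0 < d)
    (h : a + b = c + d) (ho : Outer a b c d) : c ^ r + d ^ r < a ^ r + b ^ r := by
  have := outer_convex (Real.strictConcaveOn_rpow hr hr1).neg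
    (mem_Ici.2 hc.le) (mem_Ici.2 hd.le) h ho
  simp only [Pi.neg_apply] at this
  linarith

lemma quad {x y z w : ℕ} (hx : 0 < x) (hy : 0 < y) (hz : 0 < z) (hw : 0 < w)
    (h : x ^ 3 + y ^ 3 = z ^ 3 + w ^ 3) (h1 : x ≠ z) (h2 : x ≠ w) (hs : z + w < x + y) :
    z * w < x * y ∧
    (∀ p : ℝ, 0 < p → p < 3 → (z : ℝ) ^ p + (w : ℝ) ^ p < (x : ℝ) ^ p + (y : ℝ) ^ p) ∧
    (∀ p : ℝ, p < 0 ∨ 3 < p → (x : ℝ) ^ p + (y : ℝ) ^ p < (z : ℝ) ^ p + (w : ℝ) ^ p) := by
  have key : ∀ (p : ℝ) (a : ℕ), ((a : ℝ) ^ 3) ^ (p / 3) = (a : ℝ) ^ p := by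
    intro p a
    rw [← Real.rpow_natCast, ← Real.rpow_mul (Nat.cast_nonneg a)]
    congr 1
    push_cast
    ring
  have h' : (x : ℝ) ^ 3 + (y : ℝ) ^ 3 = (z : ℝ) ^ 3 + (w : ℝ) ^ 3 := by exact_mod_cast h
  have hx' : (0 : ℝ) < (x : ℝ) ^ 3 := by positivity
  have hy' : (0 : ℝ) < (y : ℝ) ^ 3 := by positivity
  have hz' : (0 : ℝ) < (z : ℝ) ^ 3 := by positivity
  have hw' : (0 : ℝ) < (w : ℝ) ^ 3 := by positivity
  have d1 : (x : ℝ) ^ 3 ≠ (z : ℝ) ^ 3 := by
    intro he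
    apply h1
    have h3 : x ^ 3 = z ^ 3 := by exact_mod_cast he
    exact Nat.pow_left_injective (by norm_num) h3
  have d2 : (x : ℝ) ^ 3 ≠ (w : ℝ) ^ 3 := by
    intro he
    apply h2
    have h3 : x ^ 3 = w ^ 3 := by exact_mod_cast he
    exact Nat.pow_left_injective (by norm_num) h3
  have ho : Outer ((x : ℝ) ^ 3) ((y : ℝ) ^ 3) ((z : ℝ) ^ 3) ((w : ℝ) ^ 3) := by
    rcases outer_or h' d1 d2 with ho | ho
    · exact ho
    · exfalso
      have := outer_rpow_conc (r := 1 / 3) (by norm_num) (by norm_num) hx' hy' h'.symm ho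
      rw [key 1, key 1, key 1, key 1, Real.rpow_one, Real.rpow_one, Real.rpow_one,
        Real.rpow_one] at this
      have h3 : x + y < z + w := by exact_mod_cast this
      omega
  refine ⟨?_, fun p hp hp3 => ?_, fun p hp => ?_⟩
  · have e1 : ((x : ℝ) ^ 3 - z ^ 3) * (x ^ 3 - w ^ 3) = (z * w) ^ 3 - (x * y) ^ 3 := by
      have e2 : ((x : ℝ) ^ 3 - z ^ 3) * (x ^ 3 - w ^ 3)
        = x ^ 3 * x ^ 3 - x ^ 3 * (z ^ 3 + w ^ 3) + (z * w) ^ 3 := by ring
      rw [e2, ← h']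
      ring
    have e3 : ((x : ℝ) ^ 3 - z ^ 3) * (x ^ 3 - w ^ 3) < 0 := by
      rcases ho with ⟨k1, k2⟩ | ⟨k1, k2⟩
      · exact mul_neg_of_pos_of_neg (by linarith) (by linarith)
      · exact mul_neg_of_neg_of_pos (by linarith) (by linarith)
    have e4 : ((z : ℝ) * w) ^ 3 < ((x : ℝ) * y) ^ 3 := by linarith
    have e5 : (z * w) ^ 3 < (x * y) ^ 3 := by exact_mod_cast e4
    exact lt_of_pow_lt_pow_left₀ 3 (Nat.zero_le _) e5
  · have := outer_rpow_conc (r := p / 3) (by linarith) (by linarith) hz' hw' h' ho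
    rw [key, key, key, key] at this
    exact this
  · have := outer_rpow_conv (r := p / 3)
      (by rcases hp with hp | hp
          · exact Or.inl (by linarith)
          · exact Or.inr (by linarith)) hz' hw' h' ho
    rw [key, key, key, key] at this
    exact this

lemma lt_of_small {x y z w : ℕ} (hx : 0 < x) (hy : 0 < y) (h : x ^ 3 + y ^ 3 = z ^ 3 + w ^ 3)
    (h1 : x < z) (h2 : x < w) : x + y < z + w := by
  have hx' : (0 : ℝ) < (x : ℝ) ^ 3 := by positivity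
  have hy' : (0 : ℝ) < (y : ℝ) ^ 3 := by positivity
  have h' : (z : ℝ) ^ 3 + (w : ℝ) ^ 3 = (x : ℝ) ^ 3 + (y : ℝ) ^ 3 := by exact_mod_cast h.symm
  have k1 : (x : ℝ) ^ 3 < (z : ℝ) ^ 3 := by
    exact_mod_cast Nat.pow_lt_pow_left h1 (by norm_num)
  have k2 : (x : ℝ) ^ 3 < (w : ℝ) ^ 3 := by
    exact_mod_cast Nat.pow_lt_pow_left h2 (by norm_num)
  have key : ∀ a : ℕ, ((a : ℝ) ^ 3) ^ ((1 : ℝ) / 3) = (a : ℝ) := by
    intro a
    rw [← Real.rpow_natCast, ← Real.rpow_mul (Nat.cast_nonneg a)]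
    norm_num
  have := outer_rpow_conc (r := 1 / 3) (by norm_num) (by norm_num) hx' hy' h' (Or.inl ⟨k1, k2⟩)
  rw [key, key, key, key] at this
  exact_mod_cast this

/-- the pair `A, B` surrounds the pair `C, D` when `B` is the smallest of the four -/
lemma full {A B C D : ℕ} (hA : 0 < A) (hB : 0 < B) (hC : 0 < C) (hD : 0 < D)
    (h : A ^ 3 + B ^ 3 = C ^ 3 + D ^ 3) (h1 : B < C) (h2 : B < D) :
    C < A ∧ D < A ∧ A + B < C + D ∧ A * B < C * D ∧
    (∀ p : ℝ, 0 < p → p < 3 → (A : ℝ) ^ p + (B : ℝ) ^ p < (C : ℝ) ^ p + (D : ℝ) ^ p) ∧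
    (∀ p : ℝ, p < 0 ∨ 3 < p → (C : ℝ) ^ p + (D : ℝ) ^ p < (A : ℝ) ^ p + (B : ℝ) ^ p) := by
  have k1 := Nat.pow_lt_pow_left h1 (show 3 ≠ 0 by norm_num)
  have k2 := Nat.pow_lt_pow_left h2 (show 3 ≠ 0 by norm_num)
  have c1 : C < A := lt_of_pow_lt_pow_left₀ 3 (Nat.zero_le _) (by omega)
  have c2 : D < A := lt_of_pow_lt_pow_left₀ 3 (Nat.zero_le _) (by omega)
  have c3 : A + B < C + D := by
    have := lt_of_small hB hA ((add_comm _ _).trans h) h1 h2
    omega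
  obtain ⟨q1, q2, q3⟩ := quad hC hD hA hB h.symm c1.ne h1.ne' c3
  exact ⟨c1, c2, c3, q1, q2, q3⟩

lemma small_of_large {A B C D : ℕ} (h : A ^ 3 + B ^ 3 = C ^ 3 + D ^ 3) (h1 : C < A) (h2 : D < A) :
    B < C ∧ B < D := by
  have k1 := Nat.pow_lt_pow_left h1 (show 3 ≠ 0 by norm_num)
  have k2 := Nat.pow_lt_pow_left h2 (show 3 ≠ 0 by norm_num)
  exact ⟨lt_of_pow_lt_pow_left₀ 3 (Nat.zero_le _) (by omega),
    lt_of_pow_lt_pow_left₀ 3 (Nat.zero_le _) (by omega)⟩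

/-- two lines that cross at the entry `e` -/
lemma below_of {a b : Fin 3 → ℕ} {e A B C D : ℕ} (he : 0 < e) (hA : 0 < A) (hB : 0 < B)
    (hC : 0 < C) (hD : 0 < D) (h : A ^ 3 + B ^ 3 = C ^ 3 + D ^ 3) (h1 : B < C) (h2 : B < D)
    (ha : ∀ f : ℕ → ℝ, ∑ k, f (a k) = f e + (f A + f B))
    (hb : ∀ f : ℕ → ℝ, ∑ k, f (b k) = f e + (f C + f D))
    (ha' : ∏ k, a k = e * (A * B)) (hb' : ∏ k, b k = e * (C * D)) : Below a b := by
  obtain ⟨-, -, q1, q2, q3, q4⟩ := full hA hB hC hD h h1 h2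
  refine ⟨?_, ?_, fun p hp hp3 => ?_, fun p hp => ?_⟩
  · have e1 := ha fun x => (x : ℝ)
    have e2 := hb fun x => (x : ℝ)
    have e3 : ((∑ k, a k : ℕ) : ℝ) < ((∑ k, b k : ℕ) : ℝ) := by
      push_cast
      rw [e1, e2]
      have : (A : ℝ) + B < C + D := by exact_mod_cast q1
      linarith
    exact_mod_cast e3
  · rw [ha', hb']
    exact Nat.mul_lt_mul_of_pos_left q2 he
  · rw [ha fun x => (x : ℝ) ^ p, hb fun x => (x : ℝ) ^ p]
    have := q3 p hp hp3
    linarith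
  · rw [ha fun x => (x : ℝ) ^ p, hb fun x => (x : ℝ) ^ p]
    have := q4 p hp
    linarith

/-- the congruence modulo `6` -/
lemma modEq_six (a : ℕ) : a ≡ a ^ 3 [MOD 6] := by
  have := six_dvd (a : ℤ)
  exact (Nat.modEq_iff_dvd).2 (by push_cast; exact this)

lemma sum_modEq {a : Fin 3 → ℕ} {t : ℕ} (h : ∑ k, a k ^ 3 = t) : ∑ k, a k ≡ t [MOD 6] := by
  rw [← h, Fin.sum_univ_three, Fin.sum_univ_three]
  exact ((modEq_six _).add (modEq_six _)).add (modEq_six _)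

lemma step_six {a b : Fin 3 → ℕ} {t : ℕ} (ha : ∑ k, a k ^ 3 = t) (hb : ∑ k, b k ^ 3 = t)
    (h : Below a b) : ∑ k, a k + 6 ≤ ∑ k, b k := by
  have h1 := sum_modEq ha
  have h2 := sum_modEq hb
  have h3 := h.1
  unfold Nat.ModEq at h1 h2
  omega

/-- the order structure when the largest entry is at `(0, 0)` and the smallest at `(0, 2)` -/
lemma core {m : Fin 3 → Fin 3 → ℕ} {t : ℕ} (h : IsSemiMagicOfCubes m t)
    (hmax : ∀ a b, m a b ≤ m 0 0) (hmin : ∀ a b, m 0 2 ≤ m a b) :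
    ((m 0 2 < m 1 0 ∧ m 0 2 < m 2 0) ∧ (m 1 0 < m 0 1 ∧ m 2 0 < m 0 1) ∧
      (m 0 1 < m 1 2 ∧ m 0 1 < m 2 2) ∧ (m 1 2 < m 0 0 ∧ m 2 2 < m 0 0) ∧
      (m 2 0 < m 1 1 ∧ m 1 1 < m 2 2) ∧ (m 1 0 < m 2 1 ∧ m 2 1 < m 1 2)) ∧
    (Below (m 0) (fun k => m k 0) ∧ Below (m 0) (fun k => m k 2)) ∧
    (Below (fun k => m k 0) (m 1) ∧ Below (fun k => m k 0) (m 2) ∧
      Below (fun k => m k 2) (m 1) ∧ Below (fun k => m k 2) (m 2)) ∧
    (Below (m 1) (fun k => m k 1) ∧ Below (m 2) (fun k => m k 1)) ∧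
    18 * ((m 0 0 : ℤ) + m 0 2) + 324 < ((m 0 0 : ℤ) - m 0 2) ^ 2 := by
  obtain ⟨hp, hd, hr, hc⟩ := h
  have R0 := hr 0
  have R1 := hr 1
  have R2 := hr 2
  have C0 := hc 0
  have C1 := hc 1
  have C2 := hc 2
  have hr' := hr
  have hc' := hc
  rw [Fin.sum_univ_three] at R0 R1 R2 C0 C1 C2
  have ne : ∀ {i j k l : Fin 3}, (i ≠ k ∨ j ≠ l) → m i j ≠ m k l := by
    intro i j k l hne he
    have := hd _ _ _ _ he
    rcases hne with h | h
    · exact h this.1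
    · exact h this.2
  -- the nine cells
  have a10 : m 0 2 < m 1 0 := lt_of_le_of_ne (hmin _ _) (ne (Or.inl (by decide)))
  have a20 : m 0 2 < m 2 0 := lt_of_le_of_ne (hmin _ _) (ne (Or.inl (by decide)))
  have a12 : m 1 2 < m 0 0 := lt_of_le_of_ne (hmax _ _) (ne (Or.inl (by decide)))
  have a22 : m 2 2 < m 0 0 := lt_of_le_of_ne (hmax _ _) (ne (Or.inl (by decide)))
  -- cell (0,0): row pair m01, m02; column pair m10, m20
  have c00 : m 0 1 ^ 3 + m 0 2 ^ 3 = m 1 0 ^ 3 + m 2 0 ^ 3 := by omega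
  have f00 := full (hp 0 1) (hp 0 2) (hp 1 0) (hp 2 0) c00 a10 a20
  -- cell (0,2): row pair m00, m01; column pair m12, m22
  have c02 : m 0 0 ^ 3 + m 0 1 ^ 3 = m 1 2 ^ 3 + m 2 2 ^ 3 := by omega
  have s02 := small_of_large c02 a12 a22
  -- cell (1,0): column pair m00, m20; row pair m11, m12
  have c10 : m 0 0 ^ 3 + m 2 0 ^ 3 = m 1 1 ^ 3 + m 1 2 ^ 3 := by omega
  have s10 := small_of_large c10 (lt_of_le_of_ne (hmax 1 1) (ne (Or.inl (by decide)))) a12
  -- cell (2,0): column pair m00, m10; row pair m21, m22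
  have c20 : m 0 0 ^ 3 + m 1 0 ^ 3 = m 2 1 ^ 3 + m 2 2 ^ 3 := by omega
  have s20 := small_of_large c20 (lt_of_le_of_ne (hmax 2 1) (ne (Or.inl (by decide)))) a22
  -- cell (1,2): column pair m22, m02; row pair m10, m11
  have c12 : m 2 2 ^ 3 + m 0 2 ^ 3 = m 1 0 ^ 3 + m 1 1 ^ 3 := by omega
  have b11 : m 0 2 < m 1 1 := lt_of_le_of_ne (hmin _ _) (ne (Or.inl (by decide)))
  have b21 : m 0 2 < m 2 1 := lt_of_le_of_ne (hmin _ _) (ne (Or.inl (by decide)))
  have f12 := full (hp 2 2) (hp 0 2) (hp 1 0) (hp 1 1) c12 a10 b11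
  -- cell (2,2): column pair m12, m02; row pair m20, m21
  have c22 : m 1 2 ^ 3 + m 0 2 ^ 3 = m 2 0 ^ 3 + m 2 1 ^ 3 := by omega
  have f22 := full (hp 1 2) (hp 0 2) (hp 2 0) (hp 2 1) c22 a20 b21
  -- cell (1,1): row pair m12, m10; column pair m01, m21
  have c11 : m 1 2 ^ 3 + m 1 0 ^ 3 = m 0 1 ^ 3 + m 2 1 ^ 3 := by omega
  -- cell (2,1): row pair m22, m20; column pair m01, m11
  have c21 : m 2 2 ^ 3 + m 2 0 ^ 3 = m 0 1 ^ 3 + m 1 1 ^ 3 := by omega
  have B1 : Below (m 0) (fun k => m k 0) := below_of (hp 0 0) (hp 0 1) (hp 0 2) (hp 1 0) (hp 2 0)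
    c00 a10 a20 (fun f => by rw [Fin.sum_univ_three]; ring)
    (fun f => by rw [Fin.sum_univ_three]; ring)
    (by rw [Fin.prod_univ_three]; ring) (by rw [Fin.prod_univ_three]; ring)
  have B2 : Below (m 0) (fun k => m k 2) := below_of (hp 0 2) (hp 0 0) (hp 0 1) (hp 1 2) (hp 2 2)
    c02 s02.1 s02.2 (fun f => by rw [Fin.sum_univ_three]; ring)
    (fun f => by rw [Fin.sum_univ_three]; ring)
    (by rw [Fin.prod_univ_three]; ring) (by rw [Fin.prod_univ_three]; ring)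
  have B3 : Below (fun k => m k 0) (m 1) := below_of (hp 1 0) (hp 0 0) (hp 2 0) (hp 1 1) (hp 1 2)
    c10 s10.1 s10.2 (fun f => by rw [Fin.sum_univ_three]; ring)
    (fun f => by rw [Fin.sum_univ_three]; ring)
    (by rw [Fin.prod_univ_three]; ring) (by rw [Fin.prod_univ_three]; ring)
  have B4 : Below (fun k => m k 0) (m 2) := below_of (hp 2 0) (hp 0 0) (hp 1 0) (hp 2 1) (hp 2 2)
    c20 s20.1 s20.2 (fun f => by rw [Fin.sum_univ_three]; ring)
    (fun f => by rw [Fin.sum_univ_three]; ring)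
    (by rw [Fin.prod_univ_three]; ring) (by rw [Fin.prod_univ_three]; ring)
  have B5 : Below (fun k => m k 2) (m 1) := below_of (hp 1 2) (hp 2 2) (hp 0 2) (hp 1 0) (hp 1 1)
    c12 a10 b11 (fun f => by rw [Fin.sum_univ_three]; ring)
    (fun f => by rw [Fin.sum_univ_three]; ring)
    (by rw [Fin.prod_univ_three]; ring) (by rw [Fin.prod_univ_three]; ring)
  have B6 : Below (fun k => m k 2) (m 2) := below_of (hp 2 2) (hp 1 2) (hp 0 2) (hp 2 0) (hp 2 1)
    c22 a20 b21 (fun f => by rw [Fin.sum_univ_three]; ring)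
    (fun f => by rw [Fin.sum_univ_three]; ring)
    (by rw [Fin.prod_univ_three]; ring) (by rw [Fin.prod_univ_three]; ring)
  have B7 : Below (m 1) (fun k => m k 1) := below_of (hp 1 1) (hp 1 2) (hp 1 0) (hp 0 1) (hp 2 1)
    c11 f00.1 s20.1 (fun f => by rw [Fin.sum_univ_three]; ring)
    (fun f => by rw [Fin.sum_univ_three]; ring)
    (by rw [Fin.prod_univ_three]; ring) (by rw [Fin.prod_univ_three]; ring)
  have B8 : Below (m 2) (fun k => m k 1) := below_of (hp 2 1) (hp 2 2) (hp 2 0) (hp 0 1) (hp 1 1)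
    c21 f00.2.1 s10.1 (fun f => by rw [Fin.sum_univ_three]; ring)
    (fun f => by rw [Fin.sum_univ_three]; ring)
    (by rw [Fin.prod_univ_three]; ring) (by rw [Fin.prod_univ_three]; ring)
  refine ⟨⟨⟨a10, a20⟩, ⟨f00.1, f00.2.1⟩, s02, ⟨a12, a22⟩, ⟨s10.1, f12.2.1⟩,
    ⟨s20.1, f22.2.1⟩⟩, ⟨B1, B2⟩, ⟨B3, B4, B5, B6⟩, ⟨B7, B8⟩, ?_⟩
  have t1 := step_six (hr' 0) (hc' 0) B1
  have t2 := step_six (hc' 0) (hr' 1) B3
  have t3 := step_six (hr' 1) (hc' 1) B7
  have hD : ∑ k, m 0 k + 18 ≤ ∑ k, m k 1 := by omega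
  rw [Fin.sum_univ_three, Fin.sum_univ_three] at hD
  have c01 : (m 1 1 : ℤ) ^ 3 + (m 2 1 : ℤ) ^ 3 = (m 0 0 : ℤ) ^ 3 + (m 0 2 : ℤ) ^ 3 := by
    have : m 1 1 ^ 3 + m 2 1 ^ 3 = m 0 0 ^ 3 + m 0 2 ^ 3 := by omega
    exact_mod_cast this
  refine spread (by exact_mod_cast hp _ _) (by exact_mod_cast hp _ _) c01 ?_
  have : m 0 0 + m 0 2 + 18 ≤ m 1 1 + m 2 1 := by omega
  exact_mod_cast this

lemma IsSemiMagicOfCubes.transpose {n : Fin 3 → Fin 3 → ℕ} {t : ℕ} (h : IsSemiMagicOfCubes n t) :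
    IsSemiMagicOfCubes (fun a b => n b a) t := by
  obtain ⟨h1, h2, h3, h4⟩ := h
  exact ⟨fun i j => h1 j i, fun i j k l he => (h2 j i l k he).symm, h4, h3⟩

lemma IsSemiMagicOfCubes.perm {n : Fin 3 → Fin 3 → ℕ} {t : ℕ} (h : IsSemiMagicOfCubes n t)
    (σ τ : Equiv.Perm (Fin 3)) : IsSemiMagicOfCubes (fun a b => n (σ a) (τ b)) t := by
  obtain ⟨h1, h2, h3, h4⟩ := h
  refine ⟨fun i j => h1 _ _, fun i j k l he => ?_, fun i => ?_, fun j => ?_⟩
  · have := h2 _ _ _ _ he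
    exact ⟨σ.injective this.1, τ.injective this.2⟩
  · rw [← h3 (σ i)]
    exact Equiv.sum_comp τ fun j => n (σ i) j ^ 3
  · rw [← h4 (τ j)]
    exact Equiv.sum_comp σ fun i => n i (τ j) ^ 3

lemma exists_perm : ∀ j l : Fin 3, j ≠ l → ∃ τ : Equiv.Perm (Fin 3), τ 0 = j ∧ τ 2 = l := by
  decide

lemma eq_one_or_two : ∀ {j b : Fin 3}, j ≠ b → j = b + 1 ∨ j = b + 2 := by
  decide

/-- row `i` contains the largest entry, at a place outside column `b` -/
lemma row_lt_of_max {n : Fin 3 → Fin 3 → ℕ} {t : ℕ} (h : IsSemiMagicOfCubes n t) {i b j : Fin 3}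
    (hjb : j ≠ b) (hmax : ∀ a c, n a c ≤ n i j) : ∑ k, n i k < ∑ k, n k b := by
  have hc := (cross h i b).1
  have hp := h.1
  have hne : ∀ a, n a b ≠ n i j := fun a he => hjb (h.2.1 _ _ _ _ he).2.symm
  have z1 : n (i + 1) b < n i j := lt_of_le_of_ne (hmax _ _) (hne _)
  have z2 : n (i + 2) b < n i j := lt_of_le_of_ne (hmax _ _) (hne _)
  rw [sum3 (fun k => n i k) b, sum3 (fun k => n k b) i]
  rcases eq_one_or_two hjb with hj | hj
  · rw [hj] at z1 z2
    have s := small_of_large hc z1 z2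
    have := (full (hp _ _) (hp _ _) (hp _ _) (hp _ _) hc s.1 s.2).2.2.1
    omega
  · rw [hj] at z1 z2
    have hc' := (add_comm _ _).trans hc
    have s := small_of_large hc' z1 z2
    have := (full (hp _ _) (hp _ _) (hp _ _) (hp _ _) hc' s.1 s.2).2.2.1
    omega

/-- row `i` contains the smallest entry, at a place outside column `b` -/
lemma row_lt_of_min {n : Fin 3 → Fin 3 → ℕ} {t : ℕ} (h : IsSemiMagicOfCubes n t) {i b l : Fin 3}
    (hlb : l ≠ b) (hmin : ∀ a c, n i l ≤ n a c) : ∑ k, n i k < ∑ k, n k b := by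
  have hc := (cross h i b).1
  have hp := h.1
  have hne : ∀ a, n i l ≠ n a b := fun a he => hlb (h.2.1 _ _ _ _ he).2
  have z1 : n i l < n (i + 1) b := lt_of_le_of_ne (hmin _ _) (hne _)
  have z2 : n i l < n (i + 2) b := lt_of_le_of_ne (hmin _ _) (hne _)
  rw [sum3 (fun k => n i k) b, sum3 (fun k => n k b) i]
  rcases eq_one_or_two hlb with hj | hj
  · rw [hj] at z1 z2
    have := (full (hp _ _) (hp _ _) (hp _ _) (hp _ _) ((add_comm _ _).trans hc) z1 z2).2.2.1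
    omega
  · rw [hj] at z1 z2
    have := (full (hp _ _) (hp _ _) (hp _ _) (hp _ _) hc z1 z2).2.2.1
    omega

/-- the largest and the smallest entry in a common row: rearrangement -/
lemma same_row {n : Fin 3 → Fin 3 → ℕ} {t : ℕ} (h : IsSemiMagicOfCubes n t) {i j l : Fin 3}
    (hmax : ∀ a b, n a b ≤ n i j) (hmin : ∀ a b, n i l ≤ n a b) :
    ∃ σ τ : Equiv.Perm (Fin 3), (∀ a b, n (σ a) (τ b) ≤ n (σ 0) (τ 0)) ∧
      ∀ a b, n (σ 0) (τ 2) ≤ n (σ a) (τ b) := by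
  have hjl : j ≠ l := by
    rintro rfl
    have h1 := le_antisymm (hmax 0 0) (hmin 0 0)
    have h2 := le_antisymm (hmax 0 1) (hmin 0 1)
    have := (h.2.1 _ _ _ _ (h1.trans h2.symm)).2
    simp at this
  obtain ⟨τ, h0, h2⟩ := exists_perm j l hjl
  refine ⟨Equiv.swap 0 i, τ, fun a b => ?_, fun a b => ?_⟩
  · rw [Equiv.swap_apply_left, h0]
    exact hmax _ _
  · rw [Equiv.swap_apply_left, h2]
    exact hmin _ _

/-- **Main theorem.**  Let the cubes of the pairwise distinct positive integers `n i j` form a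
semi-magic square with sum `t`.  After permuting the rows and the columns and perhaps transposing
(array `m`), `m 0 0` is the largest and `m 0 2` the smallest entry, the entries are ordered as
stated, row `0` is below the columns `0` and `2`, these are below the rows `1` and `2`, which are
below column `1`, and `18 (M + μ) + 324 < (M - μ)²` for the largest entry `M` and the smallest `μ`.  All
six sums of base numbers are congruent to `t` modulo `6`, and a power of a prime `p ≡ 2 (mod 3)`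
which divides `t - (n i j)³` divides the difference of the sums of row `i` and column `j`, unless
`p` divides both other entries of the row or both other entries of the column. -/
theorem result (n : Fin 3 → Fin 3 → ℕ) (t : ℕ) (h : IsSemiMagicOfCubes n t) :
    (∃ m : Fin 3 → Fin 3 → ℕ, IsRearrangement m n ∧
      ((m 0 2 < m 1 0 ∧ m 0 2 < m 2 0) ∧ (m 1 0 < m 0 1 ∧ m 2 0 < m 0 1) ∧
        (m 0 1 < m 1 2 ∧ m 0 1 < m 2 2) ∧ (m 1 2 < m 0 0 ∧ m 2 2 < m 0 0) ∧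
        (m 2 0 < m 1 1 ∧ m 1 1 < m 2 2) ∧ (m 1 0 < m 2 1 ∧ m 2 1 < m 1 2)) ∧
      (Below (m 0) (fun k => m k 0) ∧ Below (m 0) (fun k => m k 2)) ∧
      (Below (fun k => m k 0) (m 1) ∧ Below (fun k => m k 0) (m 2) ∧
        Below (fun k => m k 2) (m 1) ∧ Below (fun k => m k 2) (m 2)) ∧
      (Below (m 1) (fun k => m k 1) ∧ Below (m 2) (fun k => m k 1)) ∧
      18 * ((m 0 0 : ℤ) + m 0 2) + 324 < ((m 0 0 : ℤ) - m 0 2) ^ 2) ∧
    (∀ i, ∑ k, n i k ≡ t [MOD 6]) ∧ (∀ j, ∑ k, n k j ≡ t [MOD 6]) ∧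
    ∀ (i j : Fin 3) (p e : ℕ), p.Prime → p % 3 = 2 → (p : ℤ) ^ e ∣ (t : ℤ) - (n i j : ℤ) ^ 3 →
      (∃ k, k ≠ j ∧ ¬ p ∣ n i k) → (∃ k, k ≠ i ∧ ¬ p ∣ n k j) →
      (p : ℤ) ^ e ∣ (∑ k, (n i k : ℤ)) - ∑ k, (n k j : ℤ) := by
  refine ⟨?_, fun i => sum_modEq (h.2.2.1 i), fun j => sum_modEq (a := fun k => n k j)
    (h.2.2.2 j), ?_⟩
  · obtain ⟨q, hq⟩ := Finite.exists_max fun q : Fin 3 × Fin 3 => n q.1 q.2
    obtain ⟨r, hr⟩ := Finite.exists_min fun q : Fin 3 × Fin 3 => n q.1 q.2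
    obtain ⟨i, j⟩ := q
    obtain ⟨k, l⟩ := r
    have hmax : ∀ a b, n a b ≤ n i j := fun a b => hq (a, b)
    have hmin : ∀ a b, n k l ≤ n a b := fun a b => hr (a, b)
    by_cases hik : i = k
    · subst hik
      obtain ⟨σ, τ, h1, h2⟩ := same_row h hmax hmin
      exact ⟨fun a b => n (σ a) (τ b), ⟨σ, τ, Or.inl fun a b => rfl⟩, core (h.perm σ τ) h1 h2⟩
    · by_cases hjl : j = l
      · subst hjl
        obtain ⟨σ, τ, h1, h2⟩ := same_row h.transpose (i := j) (j := i) (l := k)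
          (fun a b => hmax b a) (fun a b => hmin b a)
        exact ⟨fun a b => n (τ b) (σ a), ⟨σ, τ, Or.inr fun a b => rfl⟩,
          core (h.transpose.perm σ τ) h1 h2⟩
      · exfalso
        have k1 := row_lt_of_max h (i := i) (b := l) (j := j) hjl hmax
        have k2 := row_lt_of_min h.transpose (i := l) (b := i) (l := k) (Ne.symm hik)
          (fun a c => hmin c a)
        omega
  · intro i j p e hp h3 hd h1 h2
    refine Pool.Agent.H54.SC.div_cell (n := fun a b => (n a b : ℤ)) (t := (t : ℤ))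
      (fun i => by exact_mod_cast h.2.2.1 i) (fun j => by exact_mod_cast h.2.2.2 j) hp h3 i j hd
      ?_ ?_
    · obtain ⟨k, hk, hn⟩ := h1
      exact ⟨k, hk, fun hh => hn (by exact_mod_cast hh)⟩
    · obtain ⟨k, hk, hn⟩ := h2
      exact ⟨k, hk, fun hh => hn (by exact_mod_cast hh)⟩

end Pool.Agent.Results.MP_0bff99_nt.BaseSums
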