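import Pool.Agent.H54.SC.Bil

/-!
# MP_0bff99_nt: bilinear arrays of bases

`Bilinear n`: the real array `n` has the form `n i j = α u_i v_j + β u_i + γ v_j + δ`.

(1) A bilinear array of nine distinct real numbers has semi-magic cubes if and only if it is of the
form `x_i y_j` with `∑ x_i³ = ∑ y_j³ = 0`.
(2) So nine distinct integers (of any sign) with semi-magic cubes never form a bilinear array.
-/

set_option autoImplicit false

namespace Pool.Agent.Results.MP_0bff99_nt.BilinearBases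

/-- The real `3 × 3` array `n` has the form `n i j = α u_i v_j + β u_i + γ v_j + δ`. -/
def Bilinear (n : Fin 3 → Fin 3 → ℝ) : Prop :=
  ∃ (α β γ δ : ℝ) (u v : Fin 3 → ℝ), ∀ i j, n i j = α * u i * v j + β * u i + γ * v j + δ

theorem result :
    -- (1) real arrays
    (∀ n : Fin 3 → Fin 3 → ℝ, (∀ i j i' j', n i j = n i' j' → i = i' ∧ j = j') → Bilinear n →
      ((∃ t : ℝ, (∀ i, ∑ j, n i j ^ 3 = t) ∧ ∀ j, ∑ i, n i j ^ 3 = t) ↔
        ∃ x y : Fin 3 → ℝ, (∀ i j, n i j = x i * y j) ∧ ∑ i, x i ^ 3 = 0 ∧ ∑ j, y j ^ 3 = 0)) ∧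
    -- (2) integers of any sign
    ∀ (n : Fin 3 → Fin 3 → ℤ) (t : ℤ), (∀ i j i' j', n i j = n i' j' → i = i' ∧ j = j') →
      (∀ i, ∑ j, n i j ^ 3 = t) → (∀ j, ∑ i, n i j ^ 3 = t) →
      ¬ Bilinear (fun i j => (n i j : ℝ)) := by
  refine ⟨fun n inj hb => ⟨?_, ?_⟩, ?_⟩
  · rintro ⟨t, hr, hc⟩
    obtain ⟨α, β, γ, δ, u, v, h⟩ := hb
    exact Pool.Agent.H54.SC.bilinear_real inj hr hc h
  · rintro ⟨x, y, hn, hx, hy⟩
    obtain ⟨h1, h2⟩ := Pool.Agent.H54.SC.prod_semimagic hx hy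
    refine ⟨0, fun i => ?_, fun j => ?_⟩
    · simp only [hn]
      exact h1 i
    · simp only [hn]
      exact h2 j
  · rintro n t inj hr hc ⟨α, β, γ, δ, u, v, h⟩
    exact Pool.Agent.H54.SC.no_bilinear inj hr hc α β γ δ u v h

end Pool.Agent.Results.MP_0bff99_nt.BilinearBases
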