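import Mathlib
import Pool.Agent.H56.SM.Unbounded

/-!
# Semi-magic squares of nine distinct numbers, eight of them cubes

Every equality `h ^ 3 + g ^ 3 = f ^ 3 + c ^ 3` of positive integers with `g < c < f < h` lies, up
to scaling, in infinitely many pairwise non-proportional semi-magic squares of order three of nine
distinct positive integers, eight of which are cubes.

Idea: `(h, c)` is a point of the curve `X ^ 3 - Y ^ 3 = h ^ 3 - c ^ 3`, and `(h, f)` is a point of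
the curve `X ^ 3 - Y ^ 3 = h ^ 3 - f ^ 3`.  On both curves the positive rational points are
unbounded (`Pool.Agent.H56.SM.unbounded`): duplication gives infinitely many points by a 2-adic
argument, and if they were bounded, two of them would be close to each other, so that their
difference on the elliptic curve would be large.  One takes `(a, e)` on the first curve with
`h < e` and `(d, b)` on the second one with `a < b`.
-/

set_option autoImplicit false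

namespace Pool.Agent.Results.MP_0bff99_nt.EightCubes

open Pool.Agent.H56.SM

/-- all three row sums and all three column sums of `m` agree -/
def SemiMagic (m : Fin 3 → Fin 3 → ℤ) : Prop :=
  ∃ t : ℤ, (∀ i, ∑ j, m i j = t) ∧ (∀ j, ∑ i, m i j = t)

/-- `m` is a semi-magic square of nine distinct positive integers, and every entry except perhaps
the one in the last row and last column is the cube of a positive integer -/
def IsEight (m : Fin 3 → Fin 3 → ℤ) : Prop :=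
  SemiMagic m ∧ (∀ i j, 0 < m i j) ∧ (∀ i j i' j', (i, j) ≠ (i', j') → m i j ≠ m i' j') ∧
    ∀ i j, (i, j) ≠ (2, 2) → ∃ k : ℤ, 0 < k ∧ m i j = k ^ 3

/-- the square -/
def sqr (a b d e q h g f c : ℤ) : Fin 3 → Fin 3 → ℤ :=
  ![![a ^ 3, b ^ 3, (c * q) ^ 3], ![d ^ 3, e ^ 3, (f * q) ^ 3],
    ![(g * q) ^ 3, (h * q) ^ 3, a ^ 3 + b ^ 3 - (f * q) ^ 3]]

/-- the increasing list of its entries, divided by `q ^ 3` -/
def nine (a b d e h g f c : ℚ) : Fin 9 → ℚ :=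
  ![g ^ 3, c ^ 3, f ^ 3, h ^ 3, e ^ 3, a ^ 3, b ^ 3, d ^ 3, a ^ 3 + b ^ 3 - f ^ 3]

def rk : Fin 3 × Fin 3 → Fin 9 := fun p => ![![5, 6, 1], ![7, 4, 2], ![0, 3, 8]] p.1 p.2

theorem rk_inj : Function.Injective rk := by decide

theorem nine_mono (a b d e h g f c : ℚ) (hg : 0 < g) (hc : g < c) (hf : c < f) (hh : f < h)
    (he : h < e) (ha : e < a) (hb : a < b) (hd : b < d)
    (rel : h ^ 3 + g ^ 3 = f ^ 3 + c ^ 3) (k1 : a ^ 3 - e ^ 3 = h ^ 3 - c ^ 3)
    (k2 : d ^ 3 - b ^ 3 = h ^ 3 - f ^ 3) : StrictMono (nine a b d e h g f c) := by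
  have cube : ∀ {x y : ℚ}, 0 < x → x < y → x ^ 3 < y ^ 3 := fun hx hxy =>
    pow_lt_pow_left₀ hxy hx.le (by norm_num)
  have c1 := cube hg hc
  have c2 := cube (by linarith) hf
  have c3 := cube (by linarith) hh
  have c4 := cube (by linarith) he
  have c5 := cube (by linarith) ha
  have c6 := cube (by linarith) hb
  have c7 := cube (by linarith) hd
  have c8 : d ^ 3 < a ^ 3 + b ^ 3 - f ^ 3 := by linarith
  rw [Fin.strictMono_iff_lt_succ]
  intro i
  fin_cases i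
  · exact c1
  · exact c2
  · exact c3
  · exact c4
  · exact c5
  · exact c6
  · exact c7
  · exact c8

theorem sqr_cast (a b d e q h g f c : ℤ) (a0 b0 d0 e0 : ℚ) (ha : (a : ℚ) = q * a0)
    (hb : (b : ℚ) = q * b0) (hd : (d : ℚ) = q * d0) (he : (e : ℚ) = q * e0)
    (i j : Fin 3) : ((sqr a b d e q h g f c i j : ℤ) : ℚ) =
      (q : ℚ) ^ 3 * nine a0 b0 d0 e0 h g f c (rk (i, j)) := by
  fin_cases i <;> fin_cases j
  · change ((a ^ 3 : ℤ) : ℚ) = (q : ℚ) ^ 3 * a0 ^ 3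
    push_cast
    rw [ha]
    ring
  · change ((b ^ 3 : ℤ) : ℚ) = (q : ℚ) ^ 3 * b0 ^ 3
    push_cast
    rw [hb]
    ring
  · change (((c * q) ^ 3 : ℤ) : ℚ) = (q : ℚ) ^ 3 * (c : ℚ) ^ 3
    push_cast
    ring
  · change ((d ^ 3 : ℤ) : ℚ) = (q : ℚ) ^ 3 * d0 ^ 3
    push_cast
    rw [hd]
    ring
  · change ((e ^ 3 : ℤ) : ℚ) = (q : ℚ) ^ 3 * e0 ^ 3
    push_cast
    rw [he]
    ring
  · change (((f * q) ^ 3 : ℤ) : ℚ) = (q : ℚ) ^ 3 * (f : ℚ) ^ 3
    push_cast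
    ring
  · change (((g * q) ^ 3 : ℤ) : ℚ) = (q : ℚ) ^ 3 * (g : ℚ) ^ 3
    push_cast
    ring
  · change (((h * q) ^ 3 : ℤ) : ℚ) = (q : ℚ) ^ 3 * (h : ℚ) ^ 3
    push_cast
    ring
  · change ((a ^ 3 + b ^ 3 - (f * q) ^ 3 : ℤ) : ℚ) =
      (q : ℚ) ^ 3 * (a0 ^ 3 + b0 ^ 3 - (f : ℚ) ^ 3)
    push_cast
    rw [ha, hb]
    ring

theorem sqr_eight (a b d e q h g f c : ℤ) (a0 b0 d0 e0 : ℚ) (ha : (a : ℚ) = q * a0)
    (hb : (b : ℚ) = q * b0) (hd : (d : ℚ) = q * d0) (he : (e : ℚ) = q * e0)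
    (hq : 0 < q) (hg : 0 < g) (hc : g < c) (hf : c < f) (hh : f < h)
    (rel : h ^ 3 + g ^ 3 = f ^ 3 + c ^ 3) (k1 : a0 ^ 3 - e0 ^ 3 = (h : ℚ) ^ 3 - (c : ℚ) ^ 3)
    (k2 : d0 ^ 3 - b0 ^ 3 = (h : ℚ) ^ 3 - (f : ℚ) ^ 3)
    (he0 : (h : ℚ) < e0) (ha0 : e0 < a0) (hb0 : a0 < b0) (hd0 : b0 < d0) :
    IsEight (sqr a b d e q h g f c) := by
  have hqq : (0 : ℚ) < (q : ℚ) := by exact_mod_cast hq
  have hhp : (0 : ℚ) < (h : ℚ) := by
    have : 0 < h := by linarith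
    exact_mod_cast this
  have posi : ∀ {x : ℤ} {y : ℚ}, (x : ℚ) = q * y → 0 < y → 0 < x := by
    intro x y hxy hy
    have : (0 : ℚ) < (x : ℚ) := by
      rw [hxy]
      exact mul_pos hqq hy
    exact_mod_cast this
  have pa := posi ha (by linarith)
  have pb := posi hb (by linarith)
  have pd := posi hd (by linarith)
  have pe := posi he (by linarith)
  have K1 : a ^ 3 - e ^ 3 = (h * q) ^ 3 - (c * q) ^ 3 := by
    have : (a : ℚ) ^ 3 - (e : ℚ) ^ 3 = ((h : ℚ) * q) ^ 3 - ((c : ℚ) * q) ^ 3 := by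
      rw [ha, he]
      linear_combination (q : ℚ) ^ 3 * k1
    exact_mod_cast this
  have K2 : d ^ 3 - b ^ 3 = (h * q) ^ 3 - (f * q) ^ 3 := by
    have : (d : ℚ) ^ 3 - (b : ℚ) ^ 3 = ((h : ℚ) * q) ^ 3 - ((f : ℚ) * q) ^ 3 := by
      rw [hd, hb]
      linear_combination (q : ℚ) ^ 3 * k2
    exact_mod_cast this
  have relq : (h : ℚ) ^ 3 + (g : ℚ) ^ 3 = (f : ℚ) ^ 3 + (c : ℚ) ^ 3 := by exact_mod_cast rel
  have mono := nine_mono a0 b0 d0 e0 h g f c (by exact_mod_cast hg) (by exact_mod_cast hc)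
    (by exact_mod_cast hf) (by exact_mod_cast hh) he0 ha0 hb0 hd0 relq k1 k2
  have hcast := sqr_cast a b d e q h g f c a0 b0 d0 e0 ha hb hd he
  refine ⟨⟨a ^ 3 + b ^ 3 + (c * q) ^ 3, ?_, ?_⟩, ?_, ?_, ?_⟩
  · intro i
    fin_cases i
    · simp [sqr, Fin.sum_univ_three]
    · simp only [sqr, Fin.sum_univ_three]
      simp
      linear_combination K2 - K1
    · simp only [sqr, Fin.sum_univ_three]
      simp
      linear_combination q ^ 3 * rel
  · intro j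
    fin_cases j
    · simp only [sqr, Fin.sum_univ_three]
      simp
      linear_combination K2 + q ^ 3 * rel
    · simp only [sqr, Fin.sum_univ_three]
      simp
      linear_combination (-1) * K1
    · simp only [sqr, Fin.sum_univ_three]
      simp
      ring
  · intro i j
    have h1 : (0 : ℚ) < ((sqr a b d e q h g f c i j : ℤ) : ℚ) := by
      rw [hcast i j]
      apply mul_pos (pow_pos hqq 3)
      have h2 : nine a0 b0 d0 e0 h g f c 0 ≤ nine a0 b0 d0 e0 h g f c (rk (i, j)) :=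
        mono.monotone (Fin.zero_le _)
      have h3 : 0 < nine a0 b0 d0 e0 h g f c 0 := by
        change (0 : ℚ) < (g : ℚ) ^ 3
        exact pow_pos (by exact_mod_cast hg) 3
      exact lt_of_lt_of_le h3 h2
    exact_mod_cast h1
  · intro i j i' j' hne heq
    have q1 := hcast i j
    have q2 := hcast i' j'
    rw [heq, q2] at q1
    have q3 := mul_left_cancel₀ (pow_ne_zero 3 hqq.ne') q1
    exact hne (rk_inj (mono.injective q3)).symm
  · intro i j hij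
    fin_cases i <;> fin_cases j
    · exact ⟨_, pa, rfl⟩
    · exact ⟨_, pb, rfl⟩
    · exact ⟨_, mul_pos (show 0 < c by linarith) hq, rfl⟩
    · exact ⟨_, pd, rfl⟩
    · exact ⟨_, pe, rfl⟩
    · exact ⟨_, mul_pos (show 0 < f by linarith) hq, rfl⟩
    · exact ⟨_, mul_pos hg hq, rfl⟩
    · exact ⟨_, mul_pos (show 0 < h by linarith) hq, rfl⟩
    · exact absurd rfl hij

theorem clear_den (a b d e : ℚ) : ∃ q A B D E : ℤ, 0 < q ∧ (A : ℚ) = q * a ∧ (B : ℚ) = q * b ∧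
    (D : ℚ) = q * d ∧ (E : ℚ) = q * e := by
  have ha := Rat.mul_den_eq_num a
  have hb := Rat.mul_den_eq_num b
  have hd := Rat.mul_den_eq_num d
  have he := Rat.mul_den_eq_num e
  refine ⟨(a.den : ℤ) * b.den * d.den * e.den, a.num * b.den * d.den * e.den,
    a.den * b.num * d.den * e.den, a.den * b.den * d.num * e.den, a.den * b.den * d.den * e.num,
    ?_, ?_, ?_, ?_, ?_⟩
  · have h1 : (0 : ℤ) < a.den := by exact_mod_cast a.den_pos
    have h2 : (0 : ℤ) < b.den := by exact_mod_cast b.den_pos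
    have h3 : (0 : ℤ) < d.den := by exact_mod_cast d.den_pos
    have h4 : (0 : ℤ) < e.den := by exact_mod_cast e.den_pos
    positivity
  · push_cast
    rw [← ha]
    ring
  · push_cast
    rw [← hb]
    ring
  · push_cast
    rw [← hd]
    ring
  · push_cast
    rw [← he]
    ring

theorem result (h g f c : ℤ) (hg : 0 < g) (hc : g < c) (hf : c < f) (hh : f < h)
    (rel : h ^ 3 + g ^ 3 = f ^ 3 + c ^ 3) :
    ∃ M : ℕ → Fin 3 → Fin 3 → ℤ,
      (∀ k, IsEight (M k) ∧ ∃ q : ℤ, 0 < q ∧ M k 0 2 = (c * q) ^ 3 ∧ M k 1 2 = (f * q) ^ 3 ∧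
        M k 2 0 = (g * q) ^ 3 ∧ M k 2 1 = (h * q) ^ 3) ∧
      ∀ k l, k ≠ l → ∀ x y : ℤ, x ≠ 0 → ¬ ∀ i j, x * M k i j = y * M l i j := by
  have gq : (0 : ℚ) < (g : ℚ) := by exact_mod_cast hg
  have gcq : (g : ℚ) < (c : ℚ) := by exact_mod_cast hc
  have cfq : (c : ℚ) < (f : ℚ) := by exact_mod_cast hf
  have fhq : (f : ℚ) < (h : ℚ) := by exact_mod_cast hh
  have lt3 : ∀ {x y : ℚ}, x ^ 3 < y ^ 3 → x < y := fun h =>
    (Odd.strictMono_pow (by decide : Odd 3)).lt_iff_lt.1 h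
  have cube : ∀ {x y : ℚ}, 0 < x → x < y → x ^ 3 < y ^ 3 := fun hx hxy =>
    pow_lt_pow_left₀ hxy hx.le (by norm_num)
  have K1 : (0 : ℚ) < (h : ℚ) ^ 3 - (c : ℚ) ^ 3 := by
    linarith [cube (by linarith : (0 : ℚ) < c) (by linarith : (c : ℚ) < h)]
  have K2 : (0 : ℚ) < (h : ℚ) ^ 3 - (f : ℚ) ^ 3 := by
    linarith [cube (by linarith : (0 : ℚ) < f) fhq]
  have P1 : Pt ((h : ℚ) ^ 3 - (c : ℚ) ^ 3) (h : ℚ) (-(c : ℚ)) :=
    ⟨(by linarith : (0 : ℚ) < h).ne', neg_ne_zero.2 (by linarith : (0 : ℚ) < c).ne',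
      fun h0 => by linarith, by ring⟩
  have P2 : Pt ((h : ℚ) ^ 3 - (f : ℚ) ^ 3) (h : ℚ) (-(f : ℚ)) :=
    ⟨(by linarith : (0 : ℚ) < h).ne', neg_ne_zero.2 (by linarith : (0 : ℚ) < f).ne',
      fun h0 => by linarith, by ring⟩
  obtain ⟨a0, e0, ha0, he0, hhe, k1⟩ := unbounded P1 K1 (h : ℚ)
  have hea : e0 < a0 := lt3 (by linarith)
  choose Df Bf hDB using fun M : ℚ => unbounded P2 K2 M
  have hBD : ∀ M, Bf M < Df M := fun M => lt3 (by linarith [(hDB M).2.2.2])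
  let S : ℕ → ℚ := fun n => Nat.rec a0 (fun _ s => Df s) n
  have hS : StrictMono S := strictMono_nat_of_lt_succ (fun n => by
    change S n < Df (S n)
    exact lt_trans (hDB (S n)).2.2.1 (hBD (S n)))
  have hSa : ∀ n, a0 ≤ S n := fun n => hS.monotone (Nat.zero_le n)
  choose q A B D E hq hA hB hD hE using fun k : ℕ => clear_den a0 (Bf (S k)) (Df (S k)) e0
  refine ⟨fun k => sqr (A k) (B k) (D k) (E k) (q k) h g f c, ?_, ?_⟩
  · intro k
    refine ⟨?_, q k, hq k, rfl, rfl, rfl, rfl⟩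
    exact sqr_eight _ _ _ _ _ _ _ _ _ a0 (Bf (S k)) (Df (S k)) e0 (hA k) (hB k) (hD k) (hE k)
      (hq k) hg hc hf hh rel k1 (hDB (S k)).2.2.2 hhe hea
      (lt_of_le_of_lt (hSa k) (hDB (S k)).2.2.1) (hBD (S k))
  · intro k l hkl x y hx hall
    have h1 : x * (h * q k) ^ 3 = y * (h * q l) ^ 3 := hall 2 1
    have h2 : x * (D k) ^ 3 = y * (D l) ^ 3 := hall 1 0
    have h1q : (x : ℚ) * (h * (q k : ℚ)) ^ 3 = y * (h * (q l : ℚ)) ^ 3 := by exact_mod_cast h1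
    have h2q : (x : ℚ) * (D k : ℚ) ^ 3 = y * (D l : ℚ) ^ 3 := by exact_mod_cast h2
    rw [hD k, hD l] at h2q
    have hxq : (x : ℚ) ≠ 0 := by exact_mod_cast hx
    have hhq : (h : ℚ) ≠ 0 := (by linarith : (0 : ℚ) < h).ne'
    have hqk : (q k : ℚ) ≠ 0 := by exact_mod_cast (hq k).ne'
    have h3 : ((x : ℚ) * (h : ℚ) ^ 3 * (q k : ℚ) ^ 3) * (Df (S l)) ^ 3 =
        ((x : ℚ) * (h : ℚ) ^ 3 * (q k : ℚ) ^ 3) * (Df (S k)) ^ 3 := by
      linear_combination (Df (S l)) ^ 3 * h1q - (h : ℚ) ^ 3 * h2q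
    have h4 := mul_left_cancel₀ (mul_ne_zero (mul_ne_zero hxq (pow_ne_zero 3 hhq))
      (pow_ne_zero 3 hqk)) h3
    have h5 : S (k + 1) = S (l + 1) := cube_inj h4.symm
    exact hkl (Nat.succ_injective (hS.injective h5))

end Pool.Agent.Results.MP_0bff99_nt.EightCubes
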