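import Mathlib

/-!
# `3 × 3` arrays which are semi-magic together with their cubes

A `3 × 3` array is semi-magic if its three row sums and its three column sums agree.  We determine
all arrays `n` such that `n` and the array of the cubes `n i j ^ 3` are both semi-magic, over every
integral domain with `3 ≠ 0`, and all real arrays `n` such that `n` and `f (n i j)` are both
semi-magic, for strictly convex functions `f` and for odd functions `f` which are strictly convex on
`[0, ∞)`.
-/

universe u

namespace Pool.Agent.Results.MP_0bff99_nt.SemiMagicBases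

open Finset

/-- All row sums and all column sums of the `3 × 3` array `a` are equal to `t`. -/
def SemiMagic {R : Type u} [AddCommMonoid R] (a : Fin 3 → Fin 3 → R) (t : R) : Prop :=
  (∀ i, ∑ j, a i j = t) ∧ ∀ j, ∑ i, a i j = t

/-- `a` is a Latin square of three (not necessarily distinct) numbers `c 0`, `c 1`, `c 2`.  The
indices are added and subtracted modulo 3. -/
def Latin {R : Type u} (a : Fin 3 → Fin 3 → R) : Prop :=
  ∃ c : Fin 3 → R, (∀ i j, a i j = c (i + j)) ∨ ∀ i j, a i j = c (i - j)

/-- The entry at some place `(i, j)` is `-x`, the four other entries of row `i` and column `j` are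
`x`, and the remaining four entries are `y`, `-y`, `-y`, `y`.  The indices are added modulo 3. -/
def Exceptional {R : Type u} [Neg R] (a : Fin 3 → Fin 3 → R) : Prop :=
  ∃ (i j : Fin 3) (x y : R), a i j = -x ∧ a i (j + 1) = x ∧ a i (j + 2) = x ∧
    a (i + 1) j = x ∧ a (i + 2) j = x ∧ a (i + 1) (j + 1) = y ∧ a (i + 2) (j + 2) = y ∧
    a (i + 1) (j + 2) = -y ∧ a (i + 2) (j + 1) = -y

private theorem sum_shift {R : Type u} [AddCommMonoid R] (f : Fin 3 → R) (j : Fin 3) :
    ∑ l, f l = f j + f (j + 1) + f (j + 2) := by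
  rw [Fin.sum_univ_three]
  fin_cases j
  · show f 0 + f 1 + f 2 = f 0 + f 1 + f 2
    rfl
  · show f 0 + f 1 + f 2 = f 1 + f 2 + f 0
    rw [add_comm (f 1 + f 2), add_assoc]
  · show f 0 + f 1 + f 2 = f 2 + f 0 + f 1
    rw [add_comm (f 0 + f 1), add_assoc]

private theorem idx : ∀ i j : Fin 3, i + (j + 1) = i + j + 1 ∧ i - (j + 1) = i - j + 2 ∧
    i + (j + 2) = i + j + 2 ∧ i - (j + 2) = i - j + 1 ∧ i + 1 + j = i + j + 1 ∧
    i + 1 - j = i - j + 1 ∧ i + 2 + j = i + j + 2 ∧ i + 2 - j = i - j + 2 ∧
    i + 1 + (j + 1) = i + j + 2 ∧ i + 1 - (j + 1) = i - j ∧ i + 2 + (j + 2) = i + j + 1 ∧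
    i + 2 - (j + 2) = i - j ∧ i + 1 + (j + 2) = i + j ∧ i + 1 - (j + 2) = i - j + 2 ∧
    i + 2 + (j + 1) = i + j ∧ i + 2 - (j + 1) = i - j + 1 := by
  decide

/-- Every semi-magic array is a sum of a function of `i + j` and a function of `i - j`. -/
private theorem decomp {R : Type u} [CommRing R] (n : Fin 3 → Fin 3 → R) (s : R)
    (h : SemiMagic n s) : ∃ a b : Fin 3 → R, ∀ i j, n i j = a (i + j) + b (i - j) := by
  obtain ⟨r, c⟩ := h
  have r0 := r 0
  have r1 := r 1
  have r2 := r 2
  have c0 := c 0
  have c1 := c 1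
  have c2 := c 2
  simp only [Fin.sum_univ_three] at r0 r1 r2 c0 c1 c2
  refine ⟨![n 0 0, n 2 2, n 1 1], ![0, n 1 0 - n 2 2, n 2 0 - n 1 1], ?_⟩
  intro i j
  fin_cases i <;> fin_cases j
  · show n 0 0 = n 0 0 + 0
    ring
  · show n 0 1 = n 2 2 + (n 2 0 - n 1 1)
    linear_combination c1 - r2
  · show n 0 2 = n 1 1 + (n 1 0 - n 2 2)
    linear_combination c2 - r1
  · show n 1 0 = n 2 2 + (n 1 0 - n 2 2)
    ring
  · show n 1 1 = n 1 1 + 0
    ring
  · show n 1 2 = n 0 0 + (n 2 0 - n 1 1)
    linear_combination r1 - c0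
  · show n 2 0 = n 1 1 + (n 2 0 - n 1 1)
    ring
  · show n 2 1 = n 0 0 + (n 1 0 - n 2 2)
    linear_combination r2 - c0
  · show n 2 2 = n 2 2 + 0
    ring

/-- Two of three values are equal, or the three sums of two of them are not all equal. -/
private theorem three {R : Type u} [CommRing R] (a : Fin 3 → R) (h : ¬(a 0 = a 1 ∧ a 1 = a 2))
    (y : R) (hy : ∀ m, a (m + 1) ≠ a (m + 2) → a (m + 1) + a (m + 2) = y) :
    ∃ (m : Fin 3) (x z : R), x ≠ z ∧ a m = z ∧ a (m + 1) = x ∧ a (m + 2) = x := by
  by_cases h0 : a 1 = a 2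
  · exact ⟨0, a 2, a 0, fun h' => h ⟨(h0.trans h').symm, h0⟩, rfl, h0, rfl⟩
  · by_cases h1 : a 2 = a 0
    · exact ⟨1, a 0, a 1, fun h' => h ⟨h', h'.symm.trans h1.symm⟩, rfl, h1, rfl⟩
    · by_cases h2 : a 0 = a 1
      · exact ⟨2, a 1, a 2, h0, rfl, h2, rfl⟩
      · exfalso
        have e0 : a 1 + a 2 = y := hy 0 h0
        have e1 : a 2 + a 0 = y := hy 1 h1
        exact h2 (by linear_combination e1 - e0)

/-- The combinatorial core: a semi-magic array in which for every place either one partner in the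
row equals a partner in the column or the two partners in the row have sum zero. -/
private theorem cells {R : Type u} [CommRing R] (n : Fin 3 → Fin 3 → R) (s : R)
    (h : SemiMagic n s)
    (hc : ∀ i j, n i (j + 1) = n (i + 1) j ∨ n i (j + 1) = n (i + 2) j ∨
      n i (j + 1) + n i (j + 2) = 0) :
    Latin n ∨ (Exceptional n ∧ ∃ i j, n i (j + 1) ≠ n (i + 1) j ∧ n i (j + 1) ≠ n (i + 2) j) := by
  obtain ⟨a, b, hab⟩ := decomp n s h
  have hij : ∀ m k : Fin 3, ∃ i j : Fin 3, i + j = m ∧ i - j = k := by decide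
  have key : ∀ m k : Fin 3, b (k + 1) = b (k + 2) ∨ a (m + 1) = a (m + 2) ∨
      a (m + 1) + a (m + 2) + b (k + 1) + b (k + 2) = 0 := by
    intro m k
    obtain ⟨i, j, rfl, rfl⟩ := hij m k
    obtain ⟨I1, I2, I3, I4, I5, I6, I7, I8, -⟩ := idx i j
    rcases hc i j with h | h | h
    · rw [hab, hab, I1, I2, I5, I6] at h
      exact Or.inl (add_left_cancel h).symm
    · rw [hab, hab, I1, I2, I7, I8] at h
      exact Or.inr (Or.inl (add_right_cancel h))
    · rw [hab, hab, I1, I2, I3, I4] at h
      exact Or.inr (Or.inr (by linear_combination h))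
  by_cases ha : a 0 = a 1 ∧ a 1 = a 2
  · left
    refine ⟨fun k => a 0 + b k, Or.inr fun i j => ?_⟩
    have : ∀ m : Fin 3, a m = a 0 := by
      intro m
      fin_cases m
      · rfl
      · exact ha.1.symm
      · exact (ha.1.trans ha.2).symm
    rw [hab, this]
  by_cases hb : b 0 = b 1 ∧ b 1 = b 2
  · left
    refine ⟨fun m => a m + b 0, Or.inl fun i j => ?_⟩
    have : ∀ k : Fin 3, b k = b 0 := by
      intro k
      fin_cases k
      · rfl
      · exact hb.1.symm
      · exact (hb.1.trans hb.2).symm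
    rw [hab, this]
  right
  have hk : ∃ k, b (k + 1) ≠ b (k + 2) := by
    by_contra hk
    push Not at hk
    exact hb ⟨(hk 2 : b 0 = b 1), (hk 0 : b 1 = b 2)⟩
  have hm : ∃ m, a (m + 1) ≠ a (m + 2) := by
    by_contra hm
    push Not at hm
    exact ha ⟨(hm 2 : a 0 = a 1), (hm 0 : a 1 = a 2)⟩
  obtain ⟨k0, hk0⟩ := hk
  obtain ⟨m0, hm0⟩ := hm
  obtain ⟨m, x, y, hxy, am, am1, am2⟩ := three a ha (-(b (k0 + 1) + b (k0 + 2))) fun m hm => by
    rcases key m k0 with h | h | h
    · exact absurd h hk0
    · exact absurd h hm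
    · linear_combination h
  obtain ⟨k, z, w, hzw, bk, bk1, bk2⟩ := three b hb (-(a (m0 + 1) + a (m0 + 2))) fun k hk => by
    rcases key m0 k with h | h | h
    · exact absurd h hk
    · exact absurd h hm0
    · linear_combination h
  have hs : x + y + z + w = 0 := by
    have e : ∀ m : Fin 3, m + 1 + 1 = m + 2 ∧ m + 1 + 2 = m := by decide
    rcases key (m + 1) (k + 1) with h | h | h
    · rw [(e k).1, (e k).2, bk2, bk] at h
      exact absurd h hzw
    · rw [(e m).1, (e m).2, am2, am] at h
      exact absurd h hxy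
    · rw [(e m).1, (e m).2, (e k).1, (e k).2, am2, am, bk2, bk] at h
      linear_combination h
  obtain ⟨i, j, rfl, rfl⟩ := hij m k
  obtain ⟨I1, I2, I3, I4, I5, I6, I7, I8, I9, I10, I11, I12, I13, I14, I15, I16⟩ := idx i j
  have v1 : n i j = y + w := by rw [hab, am, bk]
  have v2 : n i (j + 1) = x + z := by rw [hab, I1, I2, am1, bk2]
  have v3 : n i (j + 2) = x + z := by rw [hab, I3, I4, am2, bk1]
  have v4 : n (i + 1) j = x + z := by rw [hab, I5, I6, am1, bk1]
  have v5 : n (i + 2) j = x + z := by rw [hab, I7, I8, am2, bk2]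
  have v6 : n (i + 1) (j + 1) = x + w := by rw [hab, I9, I10, am2, bk]
  have v7 : n (i + 2) (j + 2) = x + w := by rw [hab, I11, I12, am1, bk]
  have v8 : n (i + 1) (j + 2) = y + z := by rw [hab, I13, I14, am, bk2]
  have v9 : n (i + 2) (j + 1) = y + z := by rw [hab, I15, I16, am, bk1]
  refine ⟨⟨i, j, x + z, x + w, ?_, v2, v3, v4, v5, v6, v7, ?_, ?_⟩, ?_⟩
  · rw [v1]; linear_combination hs
  · rw [v8]; linear_combination hs
  · rw [v9]; linear_combination hs
  · have e : ∀ i : Fin 3, i + 1 + 1 = i + 2 ∧ i + 1 + 2 = i := by decide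
    refine ⟨i + 1, j, ?_, ?_⟩
    · rw [(e i).1, v6, v5]
      exact fun h => hzw (add_left_cancel h).symm
    · rw [(e i).2, v6, v1]
      exact fun h => hxy (add_right_cancel h)

/-- At every place, the sums of the two partners in the row and in the column agree. -/
private theorem partners {R : Type u} [CommRing R] {a : Fin 3 → Fin 3 → R} {s : R}
    (h : SemiMagic a s) (i j : Fin 3) :
    a i (j + 1) + a i (j + 2) = a (i + 1) j + a (i + 2) j := by
  have h1 := h.1 i
  have h2 := h.2 j
  rw [sum_shift _ j] at h1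
  rw [sum_shift _ i] at h2
  linear_combination h1 - h2

private theorem latin_semi {R : Type u} [CommRing R] {n : Fin 3 → Fin 3 → R} (h : Latin n) :
    ∃ s, SemiMagic n s := by
  obtain ⟨c, h⟩ := h
  refine ⟨c 0 + c 1 + c 2, ?_⟩
  rcases h with h | h
  · refine ⟨fun i => ?_, fun j => ?_⟩
    · simp only [h, Fin.sum_univ_three]
      fin_cases i
      · show c 0 + c 1 + c 2 = _
        rfl
      · show c 1 + c 2 + c 0 = _
        ring
      · show c 2 + c 0 + c 1 = _
        ring
    · simp only [h, Fin.sum_univ_three]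
      fin_cases j
      · show c 0 + c 1 + c 2 = _
        rfl
      · show c 1 + c 2 + c 0 = _
        ring
      · show c 2 + c 0 + c 1 = _
        ring
  · refine ⟨fun i => ?_, fun j => ?_⟩
    · simp only [h, Fin.sum_univ_three]
      fin_cases i
      · show c 0 + c 2 + c 1 = _
        ring
      · show c 1 + c 0 + c 2 = _
        ring
      · show c 2 + c 1 + c 0 = _
        ring
    · simp only [h, Fin.sum_univ_three]
      fin_cases j
      · show c 0 + c 1 + c 2 = _
        rfl
      · show c 2 + c 0 + c 1 = _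
        ring
      · show c 1 + c 2 + c 0 = _
        ring

private theorem exc_semi {R : Type u} [CommRing R] {n : Fin 3 → Fin 3 → R} (h : Exceptional n) :
    ∃ s, SemiMagic n s := by
  obtain ⟨i, j, x, y, h1, h2, h3, h4, h5, h6, h7, h8, h9⟩ := h
  have hk : ∀ i k : Fin 3, k = i ∨ k = i + 1 ∨ k = i + 2 := by decide
  refine ⟨x, fun k => ?_, fun l => ?_⟩
  · rw [sum_shift _ j]
    rcases hk i k with rfl | rfl | rfl
    · rw [h1, h2, h3]; ring
    · rw [h4, h6, h8]; ring
    · rw [h5, h9, h7]; ring
  · rw [sum_shift _ i]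
    rcases hk j l with rfl | rfl | rfl
    · rw [h1, h4, h5]; ring
    · rw [h2, h6, h9]; ring
    · rw [h3, h8, h7]; ring

private theorem latin_map {R : Type u} {n : Fin 3 → Fin 3 → R} (f : R → R) (h : Latin n) :
    Latin fun i j => f (n i j) := by
  obtain ⟨c, h⟩ := h
  exact ⟨fun k => f (c k), h.imp (fun h i j => congrArg f (h i j))
    (fun h i j => congrArg f (h i j))⟩

private theorem exc_map {R : Type u} [Neg R] {n : Fin 3 → Fin 3 → R} (f : R → R)
    (hf : ∀ x, f (-x) = -f x) (h : Exceptional n) : Exceptional fun i j => f (n i j) := by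
  obtain ⟨i, j, x, y, h1, h2, h3, h4, h5, h6, h7, h8, h9⟩ := h
  exact ⟨i, j, f x, f y, (congrArg f h1).trans (hf x), congrArg f h2, congrArg f h3,
    congrArg f h4, congrArg f h5, congrArg f h6, congrArg f h7, (congrArg f h8).trans (hf y),
    (congrArg f h9).trans (hf y)⟩

/-- Part 1. -/
private theorem part1 {R : Type u} [CommRing R] [IsDomain R] (h3 : (3 : R) ≠ 0)
    (n : Fin 3 → Fin 3 → R) :
    (∃ s t, SemiMagic n s ∧ SemiMagic (fun i j => n i j ^ 3) t) ↔ Latin n ∨ Exceptional n := by
  constructor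
  · rintro ⟨s, t, h, h'⟩
    refine (cells n s h fun i j => ?_).imp_right And.left
    have e1 := partners h i j
    have e2 : n i (j + 1) ^ 3 + n i (j + 2) ^ 3 = n (i + 1) j ^ 3 + n (i + 2) j ^ 3 :=
      partners h' i j
    generalize n i (j + 1) = p at *
    generalize n i (j + 2) = q at *
    generalize n (i + 1) j = r at *
    generalize n (i + 2) j = u at *
    have h1 : 3 * ((p + q) * (p * q - r * u)) = 0 := by
      linear_combination (-1) * e2 + ((p + q) ^ 2 + (p + q) * (r + u) + (r + u) ^ 2 -
        3 * r * u) * e1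
    rcases mul_eq_zero.1 ((mul_eq_zero.1 h1).resolve_left h3) with h2 | h2
    · exact Or.inr (Or.inr h2)
    · have h4 : (p - r) * (p - u) = 0 := by
        linear_combination p * e1 - h2
      rcases mul_eq_zero.1 h4 with h5 | h5
      · exact Or.inl (sub_eq_zero.1 h5)
      · exact Or.inr (Or.inl (sub_eq_zero.1 h5))
  · rintro (h | h)
    · obtain ⟨s, hs⟩ := latin_semi h
      obtain ⟨t, ht⟩ := latin_semi (latin_map (fun x => x ^ 3) h)
      exact ⟨s, t, hs, ht⟩
    · obtain ⟨s, hs⟩ := exc_semi h
      obtain ⟨t, ht⟩ := exc_semi (exc_map (fun x => x ^ 3) (fun x => by ring) h)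
      exact ⟨s, t, hs, ht⟩

/-- Strict convexity: a more spread pair with the same sum has a larger sum of values. -/
private theorem spread {S : Set ℝ} {f : ℝ → ℝ} (hf : StrictConvexOn ℝ S f) {p q r s : ℝ}
    (hp : p ∈ S) (hq : q ∈ S) (h : p + q = r + s) (h1 : q < r) (h2 : r < p) :
    f r + f s < f p + f q := by
  have hpq : 0 < p - q := by linarith
  have l0 : 0 < (r - q) / (p - q) := div_pos (by linarith) hpq
  have l1 : 0 < (p - r) / (p - q) := div_pos (by linarith) hpq
  have l2 : (r - q) / (p - q) + (p - r) / (p - q) = 1 := by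
    rw [← add_div]
    rw [div_eq_one_iff_eq hpq.ne']
    ring
  have hne : p ≠ q := (sub_pos.1 hpq).ne'
  have l3 : (p - r) / (p - q) + (r - q) / (p - q) = 1 := by rw [add_comm]; exact l2
  have a1 := hf.2 hp hq hne l0 l1 l2
  have a2 := hf.2 hp hq hne l1 l0 l3
  simp only [smul_eq_mul] at a1 a2
  have b1 : (r - q) / (p - q) * p + (p - r) / (p - q) * q = r := by
    field_simp
    ring
  have b2 : (p - r) / (p - q) * p + (r - q) / (p - q) * q = s := by
    have hs : s = p + q - r := by linarith
    rw [hs]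
    field_simp
    ring
  rw [b1] at a1
  rw [b2] at a2
  have c1 : (r - q) / (p - q) * f p + (p - r) / (p - q) * f q +
      ((p - r) / (p - q) * f p + (r - q) / (p - q) * f q) = f p + f q := by
    have : (r - q) / (p - q) * f p + (p - r) / (p - q) * f q +
      ((p - r) / (p - q) * f p + (r - q) / (p - q) * f q) =
      ((r - q) / (p - q) + (p - r) / (p - q)) * (f p + f q) := by ring
    rw [this, l2, one_mul]
  linarith

/-- The same for odd functions which are strictly convex on `[0, ∞)`, if the sum is positive. -/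
private theorem spread_odd {f : ℝ → ℝ} (hodd : ∀ x, f (-x) = -f x)
    (hf : StrictConvexOn ℝ (Set.Ici 0) f) {p q r s : ℝ} (h : p + q = r + s) (h0 : 0 < p + q)
    (h1 : s ≤ r) (h2 : r < p) : f r + f s < f p + f q := by
  have f0 : f 0 = 0 := by
    have := hodd 0
    rw [neg_zero] at this
    linarith
  have hp : 0 ≤ p := by linarith
  have hqs : q < s := by linarith
  rcases le_or_gt 0 q with hq | hq
  · exact spread hf hp hq h (by linarith) h2
  · have hq' := hodd q
    rcases le_or_gt 0 s with hs | hs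
    · -- `f r + f s ≤ f (r + s)` and `f (r + s) + f (-q) < f p`
      have e1 : f r + f s ≤ f (r + s) + f 0 := by
        rcases hs.eq_or_lt with hs0 | hs0
        · rw [← hs0, add_zero]
        · exact (spread hf (show (0:ℝ) ≤ r + s by linarith) (show (0:ℝ) ≤ 0 from le_rfl)
            (by ring) (by linarith) (by linarith)).le
      have e2 : f (r + s) + f (-q) < f p + f 0 :=
        spread hf hp (show (0:ℝ) ≤ 0 from le_rfl) (by linarith) (by linarith) (by linarith)
      linarith
    · have hs' := hodd s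
      have e : f r + f (-q) < f p + f (-s) :=
        spread hf hp (show (0:ℝ) ≤ -s by linarith) (by linarith) (by linarith) h2
      linarith

private theorem pair {S : Set ℝ} {f : ℝ → ℝ} (hf : StrictConvexOn ℝ S f) {p q r s : ℝ}
    (hp : p ∈ S) (hq : q ∈ S) (hr : r ∈ S) (hs : s ∈ S) (h : p + q = r + s)
    (h' : f p + f q = f r + f s) : p = r ∨ p = s := by
  rcases lt_trichotomy p r with h1 | h1 | h1
  · rcases lt_trichotomy p s with h2 | h2 | h2
    · exfalso
      -- `q` is larger than `r` and `s`
      have := spread hf hq hp (by linarith : q + p = r + s) h1 (by linarith)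
      linarith
    · exact Or.inr h2
    · exfalso
      have := spread hf hr hs (by linarith : r + s = p + q) h2 h1
      linarith
  · exact Or.inl h1
  · rcases lt_trichotomy p s with h2 | h2 | h2
    · exfalso
      have := spread hf hs hr (by linarith : s + r = p + q) h1 h2
      linarith
    · exact Or.inr h2
    · exfalso
      have := spread hf hp hq h (by linarith : q < r) h1
      linarith

private theorem pair_pos {f : ℝ → ℝ} (hodd : ∀ x, f (-x) = -f x)
    (hf : StrictConvexOn ℝ (Set.Ici 0) f) {p q r s : ℝ} (h : p + q = r + s) (h0 : 0 < p + q)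
    (h' : f p + f q = f r + f s) : p = r ∨ p = s := by
  have ord : ∀ {p q r s : ℝ}, p + q = r + s → 0 < p + q → q ≤ p → s ≤ r →
      f p + f q = f r + f s → p = r := by
    intro p q r s h h0 hq hs h'
    rcases lt_trichotomy p r with h1 | h1 | h1
    · have := spread_odd hodd hf h.symm (by linarith) hq h1
      linarith
    · exact h1
    · have := spread_odd hodd hf h h0 hs h1
      linarith
  rcases le_total q p with h1 | h1 <;> rcases le_total s r with h2 | h2
  · exact Or.inl (ord h h0 h1 h2 h')
  · exact Or.inr (ord (by linarith) h0 h1 h2 (by linarith))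
  · have := ord (p := q) (q := p) (r := r) (s := s) (by linarith) (by linarith) h1 h2
      (by linarith)
    exact Or.inr (by linarith)
  · have := ord (p := q) (q := p) (r := s) (s := r) (by linarith) (by linarith) h1 h2
      (by linarith)
    exact Or.inl (by linarith)

private theorem pair_odd {f : ℝ → ℝ} (hodd : ∀ x, f (-x) = -f x)
    (hf : StrictConvexOn ℝ (Set.Ici 0) f) {p q r s : ℝ} (h : p + q = r + s)
    (h' : f p + f q = f r + f s) : p = r ∨ p = s ∨ p + q = 0 := by
  rcases lt_trichotomy (p + q) 0 with h0 | h0 | h0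
  · have h1 : f (-p) + f (-q) = f (-r) + f (-s) := by
      rw [hodd, hodd, hodd, hodd]
      linarith
    rcases pair_pos hodd hf (by linarith : -p + -q = -r + -s) (by linarith) h1 with h2 | h2
    · exact Or.inl (neg_injective h2)
    · exact Or.inr (Or.inl (neg_injective h2))
  · exact Or.inr (Or.inr h0)
  · rcases pair_pos hodd hf h h0 h' with h2 | h2
    · exact Or.inl h2
    · exact Or.inr (Or.inl h2)

/-- **1.** Let `R` be an integral domain with `3 ≠ 0` and `n` a `3 × 3` array over `R`.  The arrays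
`n` and `n i j ^ 3` are both semi-magic if and only if `n` is a Latin square of three numbers or
exceptional (one entry `-x`, the four other entries of its row and column `x`, the remaining four
entries `y, -y, -y, y`).

**2.** Let `f` be strictly convex on the set `S` of real numbers and let `n` be a `3 × 3` array with
entries in `S`.  The arrays `n` and `f (n i j)` are both semi-magic if and only if `n` is a Latin
square of three numbers.

**3.** Let `f` be an odd function which is strictly convex on `[0, ∞)` and let `n` be a real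
`3 × 3` array.  The arrays `n` and `f (n i j)` are both semi-magic if and only if `n` is a Latin
square of three numbers or exceptional. -/
theorem result :
    (∀ (R : Type u) [CommRing R] [IsDomain R], (3 : R) ≠ 0 → ∀ n : Fin 3 → Fin 3 → R,
      ((∃ s t, SemiMagic n s ∧ SemiMagic (fun i j => n i j ^ 3) t) ↔ Latin n ∨ Exceptional n)) ∧
    (∀ (S : Set ℝ) (f : ℝ → ℝ), StrictConvexOn ℝ S f → ∀ n : Fin 3 → Fin 3 → ℝ,
      (∀ i j, n i j ∈ S) →
      ((∃ s t, SemiMagic n s ∧ SemiMagic (fun i j => f (n i j)) t) ↔ Latin n)) ∧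
    ∀ f : ℝ → ℝ, (∀ x, f (-x) = -f x) → StrictConvexOn ℝ (Set.Ici 0) f →
      ∀ n : Fin 3 → Fin 3 → ℝ,
      ((∃ s t, SemiMagic n s ∧ SemiMagic (fun i j => f (n i j)) t) ↔
        Latin n ∨ Exceptional n) := by
  refine ⟨fun R _ _ h3 n => part1 h3 n, fun S f hf n hS => ⟨?_, ?_⟩,
    fun f hodd hf n => ⟨?_, ?_⟩⟩
  · rintro ⟨s, t, h, h'⟩
    have hc : ∀ i j, n i (j + 1) = n (i + 1) j ∨ n i (j + 1) = n (i + 2) j := fun i j =>
      pair hf (hS _ _) (hS _ _) (hS _ _) (hS _ _) (partners h i j) (partners h' i j)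
    rcases cells n s h (fun i j => (hc i j).imp_right Or.inl) with h1 | ⟨-, i, j, h1, h2⟩
    · exact h1
    · exact absurd (hc i j) (by tauto)
  · intro h
    obtain ⟨s, hs⟩ := latin_semi h
    obtain ⟨t, ht⟩ := latin_semi (latin_map f h)
    exact ⟨s, t, hs, ht⟩
  · rintro ⟨s, t, h, h'⟩
    exact (cells n s h fun i j => pair_odd hodd hf (partners h i j) (partners h' i j)).imp_right
      And.left
  · rintro (h | h)
    · obtain ⟨s, hs⟩ := latin_semi h
      obtain ⟨t, ht⟩ := latin_semi (latin_map f h)
      exact ⟨s, t, hs, ht⟩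
    · obtain ⟨s, hs⟩ := exc_semi h
      obtain ⟨t, ht⟩ := exc_semi (exc_map f hodd h)
      exact ⟨s, t, hs, ht⟩

end Pool.Agent.Results.MP_0bff99_nt.SemiMagicBases
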